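import Pool.Agent.Run7.h501.WL.Cnt

/-!
# Malle's conjecture over sufficiently large base fields: lower bounds for `S_n ≀ H`, `H` an arbitrary
# transitive permutation group and `n` odd

Let `H` be any transitive permutation group of degree `m`, `n ≥ 3` odd and `G = S_n ≀ H ≤ S_(mn)` the group
of all permutations of `m` blocks of length `n` which permute the blocks by an element of `H`. Its minimal
index is `1`, and `β_K(G) = 1` for all number fields `K`, so that Q1 asks for `n_K(G, B) ~ C B` for all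
number fields `K` containing some `K₀`.

We show: there is a number field `K₀`, which depends on `H` only, such that
`n_K(G, B) ≥ c B ^ (1/2 + 1/n)`, `c > 0`, for all number fields `K` which contain `K₀`, all odd `n ≥ 3` and
all large `B`. Nothing is assumed on the realizability of `H` as a Galois group.

Proof: every finite group is a Galois group over all number fields containing some `K₀` (helper202,
`Run7/h202/MLB/Real`: algebraic patching over the algebraic numbers, descent, Hilbert irreducibility). The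
fixed field of a point stabilizer in such an extension has `H` as its Galois group, as a permutation group.
Over this field the theorem of project WR (helper783 and coworkers, starting result
`MP_a3214d_nt.WreathSymmetricLowerBound`) gives the extensions of degree `n` with Galois group `S_n ≀ H` over
`K`. An isomorphism class contains at most `mn` subfields of the algebraic closure.
-/

set_option autoImplicit false

open Filter

namespace Pool.Agent.Results.MP_b39724_nt.SymmetricWreathLargeFields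

/-- `G ≤ S_d` is, up to a bijection `f` of `{1, ..., d}` with `{1, ..., m} × {1, ..., n}`, the wreath product
`S_n ≀ H`: it consists of all permutations `π` for which there is `h ∈ H` such that `π` maps the block
`{x} × {1, ..., n}` to the block `{h x} × {1, ..., n}`, for all `x`. -/
def IsWreath {m : ℕ} (n : ℕ) (H : Subgroup (Equiv.Perm (Fin m))) {d : ℕ}
    (G : Subgroup (Equiv.Perm (Fin d))) : Prop :=
  ∃ f : Fin d ≃ Fin m × Fin n, ∀ π : Equiv.Perm (Fin d), π ∈ G ↔
    ∃ h ∈ H, ∀ i, (f (π i)).1 = h (f i).1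

/-- The small `G`-fields `L` over `K`, inside the algebraic closure of `K`, with
`|N(Disc(L/K))| ≤ B` (that is, `|d_L| ≤ B |d_K| ^ d`): the degree is `d`, and the Galois group, acting
on the embeddings of `L`, is `G` (up to numbering). -/
def Ext (K : Type) [Field K] [NumberField K] (d : ℕ) (G : Subgroup (Equiv.Perm (Fin d)))
    (B : ℝ) : Set (IntermediateField K (AlgebraicClosure K)) :=
  {L | Module.finrank K L = d ∧
    (∃ e : (L →ₐ[K] AlgebraicClosure K) ≃ Fin d, ∀ π : Equiv.Perm (Fin d),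
      π ∈ G ↔ ∃ σ : AlgebraicClosure K ≃ₐ[K] AlgebraicClosure K,
        ∀ φ : L →ₐ[K] AlgebraicClosure K, e (σ.toAlgHom.comp φ) = π (e φ)) ∧
    ∃ h : NumberField L,
      ((|@NumberField.discr L _ h| : ℤ) : ℝ) ≤ B * ((|NumberField.discr K| : ℤ) : ℝ) ^ d}

/-- `n_K(G, B)`: the number of these fields up to `K`-isomorphism. -/
noncomputable def N (K : Type) [Field K] [NumberField K] (d : ℕ)
    (G : Subgroup (Equiv.Perm (Fin d))) (B : ℝ) : ℕ :=
  Nat.card (Quot fun L L' : Ext K d G B => Nonempty (L.1 ≃ₐ[K] L'.1))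

/-- The index of a permutation: `d` minus the number of its cycles, fixed points included. -/
def ind {d : ℕ} (g : Equiv.Perm (Fin d)) : ℕ := g.cycleType.sum - Multiset.card g.cycleType

/-- `ind(G)`, the minimum of the indices of the elements `g ≠ 1`. -/
noncomputable def minInd {d : ℕ} (G : Subgroup (Equiv.Perm (Fin d))) : ℕ :=
  sInf {i | ∃ g ∈ G, g ≠ 1 ∧ i = ind g}

/-- The integers in the image of the cyclotomic character `χ_K` modulo `m`. -/
def cyc (K : Type) [Field K] (m : ℕ) : Set ℕ :=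
  {a | ∃ σ : AlgebraicClosure K ≃ₐ[K] AlgebraicClosure K,
    ∀ ζ : AlgebraicClosure K, ζ ^ m = 1 → σ ζ = ζ ^ a}

/-- `β_K(G)`, the number of `K`-conjugacy classes of elements of `G` of index `ind(G)`. -/
noncomputable def beta (K : Type) [Field K] {d : ℕ} (G : Subgroup (Equiv.Perm (Fin d))) : ℕ :=
  Nat.card (Quot fun g h : {g : Equiv.Perm (Fin d) // g ∈ G ∧ ind g = minInd G} =>
    ∃ x ∈ G, ∃ a ∈ cyc K (Nat.card G), h.1 = x * g.1 ^ a * x⁻¹)

theorem minInd_eq {m n : ℕ} (h2 : 2 ≤ n) (i0 : Fin m) {H : Subgroup (Equiv.Perm (Fin m))} {d : ℕ}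
    {G : Subgroup (Equiv.Perm (Fin d))} (hG : IsWreath n H G) : minInd G = 1 := by
  obtain ⟨f, hf⟩ := hG
  obtain ⟨i, j, hij, hs⟩ := Run7.h501.WL.exists_swap h2 i0 hf
  have hmem : 1 ∈ {i | ∃ g ∈ G, g ≠ 1 ∧ i = ind g} :=
    ⟨Equiv.swap i j, hs, fun h => hij (Equiv.swap_eq_one_iff.1 h),
      (Run7.h501.WL.ind_eq_one.2 ⟨i, j, hij, rfl⟩).symm⟩
  refine le_antisymm (Nat.sInf_le hmem) ?_
  refine le_csInf ⟨1, hmem⟩ ?_
  rintro _ ⟨g, -, hg, rfl⟩
  exact Run7.h501.WL.one_le_ind hg

theorem beta_eq {m n : ℕ} (h2 : 2 ≤ n) (i0 : Fin m) {H : Subgroup (Equiv.Perm (Fin m))}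
    (htr : ∀ i j : Fin m, ∃ h ∈ H, h i = j) {d : ℕ}
    {G : Subgroup (Equiv.Perm (Fin d))} (hG : IsWreath n H G) (K : Type) [Field K] :
    beta K G = 1 := by
  have h1 := minInd_eq h2 i0 hG
  obtain ⟨f, hf⟩ := hG
  obtain ⟨i, j, hij, hs⟩ := Run7.h501.WL.exists_swap h2 i0 hf
  have h3 : ind (Equiv.swap i j) = minInd G := by
    rw [h1]
    exact Run7.h501.WL.ind_eq_one.2 ⟨i, j, hij, rfl⟩
  rw [beta, Nat.card_eq_one_iff_unique]
  refine ⟨⟨fun a b => ?_⟩, ⟨Quot.mk _ ⟨Equiv.swap i j, hs, h3⟩⟩⟩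
  induction a using Quot.inductionOn with
  | _ a =>
    induction b using Quot.inductionOn with
    | _ b =>
      obtain ⟨g, hg, hg1⟩ := a
      obtain ⟨g', hg', hg1'⟩ := b
      rw [h1] at hg1 hg1'
      obtain ⟨x, y, hxy, rfl⟩ := Run7.h501.WL.ind_eq_one.1 hg1
      obtain ⟨x', y', hxy', rfl⟩ := Run7.h501.WL.ind_eq_one.1 hg1'
      obtain ⟨t, ht, h5⟩ := Run7.h501.WL.conj_swaps h2 htr hf hxy hxy' hg hg'
      refine Quot.sound ⟨t, ht, 1, ⟨1, fun ζ _ => ?_⟩, ?_⟩
      · simp
      · rw [pow_one]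
        exact h5

/-- The group `S_n ≀ H` exists. -/
theorem exists_group {m : ℕ} (n : ℕ) (H : Subgroup (Equiv.Perm (Fin m))) :
    ∃ G : Subgroup (Equiv.Perm (Fin (m * n))), IsWreath n H G := by
  let f : Fin (m * n) ≃ Fin m × Fin n := finProdFinEquiv.symm
  let G : Subgroup (Equiv.Perm (Fin (m * n))) :=
    { carrier := {π | ∃ h ∈ H, ∀ i, (f (π i)).1 = h (f i).1}
      one_mem' := ⟨1, H.one_mem, fun i => by simp⟩
      mul_mem' := by
        rintro π ρ ⟨h, hh, h1⟩ ⟨h', hh', h2⟩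
        refine ⟨h * h', H.mul_mem hh hh', fun i => ?_⟩
        rw [Equiv.Perm.mul_apply, h1, h2, Equiv.Perm.mul_apply]
      inv_mem' := by
        rintro π ⟨h, hh, h1⟩
        refine ⟨h⁻¹, H.inv_mem hh, fun i => ?_⟩
        have h2 := h1 (π⁻¹ i)
        rw [show π (π⁻¹ i) = i from π.apply_symm_apply i] at h2
        rw [h2, show h⁻¹ (h (f (π⁻¹ i)).1) = (f (π⁻¹ i)).1 from h.symm_apply_apply _] }
  exact ⟨G, f, fun π => Iff.rfl⟩

theorem trans_of {m n : ℕ} {H : Subgroup (Equiv.Perm (Fin m))}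
    (htr : ∀ i j : Fin m, ∃ h ∈ H, h i = j) {d : ℕ} {G : Subgroup (Equiv.Perm (Fin d))}
    (hG : IsWreath n H G) (i j : Fin d) : ∃ g ∈ G, g i = j := by
  obtain ⟨f, hf⟩ := hG
  obtain ⟨h, hh, hhi⟩ := htr (f i).1 (f j).1
  let t : Equiv.Perm (Fin m × Fin n) := h.prodCongr (Equiv.swap (f i).2 (f j).2)
  refine ⟨f.trans (t.trans f.symm), (hf _).2 ⟨h, hh, fun x => ?_⟩, ?_⟩
  · show (f (f.symm (t (f x)))).1 = h (f x).1
    rw [Equiv.apply_symm_apply]
    rfl
  · show f.symm (t (f i)) = j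
    rw [Equiv.symm_apply_eq]
    exact Prod.ext hhi (Equiv.swap_apply_left _ _)

/-- **Lower bounds in Malle's conjecture over sufficiently large base fields for `S_n ≀ H`, `n` odd, `H` any
transitive permutation group.** -/
theorem result : ∀ (m : ℕ) (H : Subgroup (Equiv.Perm (Fin m))), 1 ≤ m →
    (∀ i j : Fin m, ∃ h ∈ H, h i = j) →
    -- the lower bound
    (∃ (K₀ : Type) (_ : Field K₀) (_ : NumberField K₀),
      ∀ (K : Type) [Field K] [NumberField K], Nonempty (K₀ →+* K) →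
        ∀ n : ℕ, 3 ≤ n → Odd n → ∀ (d : ℕ) (G : Subgroup (Equiv.Perm (Fin d))), IsWreath n H G →
          ∃ c : ℝ, 0 < c ∧ ∀ᶠ B : ℝ in atTop, (Ext K d G B).Finite ∧
            c * B ^ ((1 : ℝ) / 2 + 1 / (n : ℝ)) ≤ (N K d G B : ℝ)) ∧
    -- the group exists and is transitive, and its invariants are `1`
    ∀ n : ℕ, 2 ≤ n → (∃ G : Subgroup (Equiv.Perm (Fin (m * n))), IsWreath n H G) ∧
      ∀ (d : ℕ) (G : Subgroup (Equiv.Perm (Fin d))), IsWreath n H G →
        (∀ i j : Fin d, ∃ g ∈ G, g i = j) ∧ minInd G = 1 ∧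
          ∀ (K : Type) [Field K] [NumberField K], beta K G = 1 := by
  intro m H hm htr
  have i0 : Fin m := ⟨0, hm⟩
  refine ⟨?_, fun n hn => ⟨exists_group n H, fun d G hG => ⟨trans_of htr hG, minInd_eq hn i0 hG,
    fun K _ _ => beta_eq hn i0 htr hG K⟩⟩⟩
  obtain ⟨K₀, i1, i2, hK₀⟩ := Run7.h202.MLB.large H
  refine ⟨K₀, i1, i2, fun K _ _ hK n hn3 hodd d G hG => ?_⟩
  obtain ⟨F, _, _, h3, h4, ⟨γ⟩⟩ := hK₀ K hK
  obtain ⟨M, hM, hMH⟩ := Run7.h501.WL.exists_hasGroup K H i0 htr F γ
  obtain ⟨f, hf⟩ := hG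
  exact Run7.h501.WL.lower K H M hM hMH hn3 hodd G f hf

end Pool.Agent.Results.MP_b39724_nt.SymmetricWreathLargeFields
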