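import Pool.Agent.Run7.h202.MLB.Asy

/-!
# Malle's conjecture over sufficiently large base fields for `C₂ ≀ H`, `H` an arbitrary finite group

`H` is a finite group acting on itself by multiplication, and `G = C₂ ≀ H` acts on `H × {0, 1}`; its
minimal index is `1` and `β_K(G) = 1` for all number fields `K`. There is no hypothesis on the
realizability of `H` as a Galois group.

1. For every finite group `H ≠ 1` there is a number field `K₀` such that `n_K(G, B) ≥ c B` for every
   number field `K` containing `K₀`: the lower bound of the conjectured order.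
2. If `H` has a faithful permutation representation with orbits of lengths `m_i` and
   `8 ∑ m_i (m_i + 1) ≤ |H|`, for instance if `H` is a permutation group of degree `m` and order at
   least `8 m (m + 1)`, then `n_K(G, B) ~ C B` for every number field `K` containing `K₀`: this is the
   conjecture for `G`.
3. This applies to `H = A × S_n`, `n ≥ |A| + 7`, and to `H = A ^ k`, `k ≥ 9`, for every finite group
   `A ≠ 1`; over a given small field the group `A`, hence `G`, need not be known to be a Galois group.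

Proof: every finite group is a Galois group over `ℚ̄(t)` (algebraic patching, from the starting
library), this descends to `K₀(t)`, and Hilbert's irreducibility theorem gives an extension of `K` with
group `H`. The quadratic extensions of such an extension are counted by the starting library. For the
asymptotic formula the extensions with group `H` have to be few: they are determined by subfields of
the degrees `m_i`, of small discriminant.
-/

set_option autoImplicit false

open Filter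

namespace Pool.Agent.Results.MP_b39724_nt.WreathOrderTwoLargeFields

/-- `G ≤ S_d` is, up to a bijection `f` of `{1, ..., d}` with `H × {0, 1}`, the wreath product
`C₂ ≀ H`: it consists of all permutations `π` for which there is `h ∈ H` such that `π` maps the block
`{x} × {0, 1}` to the block `{h x} × {0, 1}`, for all `x ∈ H`. -/
def IsC2Wreath (H : Type) [Group H] {d : ℕ} (G : Subgroup (Equiv.Perm (Fin d))) : Prop :=
  ∃ f : Fin d ≃ H × Bool, ∀ π : Equiv.Perm (Fin d), π ∈ G ↔ ∃ h : H, ∀ i, (f (π i)).1 = h * (f i).1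

/-- The small `G`-fields `L` over `K`, inside the algebraic closure of `K`, with
`|N(Disc(L/K))| ≤ B` (that is, `|d_L| ≤ B |d_K| ^ d`): the degree is `d`, and the Galois group, acting
on the embeddings of `L`, is `G` (up to numbering). -/
def Ext (K : Type) [Field K] [NumberField K] (d : ℕ) (G : Subgroup (Equiv.Perm (Fin d)))
    (B : ℝ) : Set (IntermediateField K (AlgebraicClosure K)) :=
  {L | Module.finrank K L = d ∧
    (∃ e : (L →ₐ[K] AlgebraicClosure K) ≃ Fin d, ∀ π : Equiv.Perm (Fin d),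
      π ∈ G ↔ ∃ σ : AlgebraicClosure K ≃ₐ[K] AlgebraicClosure K,
        ∀ φ : L →ₐ[K] AlgebraicClosure K, e (σ.toAlgHom.comp φ) = π (e φ)) ∧
    ∃ h : NumberField L,
      ((|@NumberField.discr L _ h| : ℤ) : ℝ) ≤ B * ((|NumberField.discr K| : ℤ) : ℝ) ^ d}

/-- `n_K(G, B)`: the number of these fields up to `K`-isomorphism. -/
noncomputable def N (K : Type) [Field K] [NumberField K] (d : ℕ)
    (G : Subgroup (Equiv.Perm (Fin d))) (B : ℝ) : ℕ :=
  Nat.card (Quot fun L L' : Ext K d G B => Nonempty (L.1 ≃ₐ[K] L'.1))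

/-- The index of a permutation: `d` minus the number of its cycles, fixed points included. -/
def ind {d : ℕ} (g : Equiv.Perm (Fin d)) : ℕ := g.cycleType.sum - Multiset.card g.cycleType

/-- `ind(G)`, the minimum of the indices of the elements `g ≠ 1`. -/
noncomputable def minInd {d : ℕ} (G : Subgroup (Equiv.Perm (Fin d))) : ℕ :=
  sInf {i | ∃ g ∈ G, g ≠ 1 ∧ i = ind g}

/-- The integers in the image of the cyclotomic character `χ_K` modulo `m`. -/
def cyc (K : Type) [Field K] (m : ℕ) : Set ℕ :=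
  {a | ∃ σ : AlgebraicClosure K ≃ₐ[K] AlgebraicClosure K,
    ∀ ζ : AlgebraicClosure K, ζ ^ m = 1 → σ ζ = ζ ^ a}

/-- `β_K(G)`, the number of `K`-conjugacy classes of elements of `G` of index `ind(G)`. -/
noncomputable def beta (K : Type) [Field K] {d : ℕ} (G : Subgroup (Equiv.Perm (Fin d))) : ℕ :=
  Nat.card (Quot fun g h : {g : Equiv.Perm (Fin d) // g ∈ G ∧ ind g = minInd G} =>
    ∃ x ∈ G, ∃ a ∈ cyc K (Nat.card G), h.1 = x * g.1 ^ a * x⁻¹)

/-- The conclusion of Q1 for `G`. -/
def MalleLargeFields {d : ℕ} (G : Subgroup (Equiv.Perm (Fin d))) : Prop :=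
  ∃ (K₀ : Type) (_ : Field K₀) (_ : NumberField K₀), ∀ (K : Type) [Field K] [NumberField K],
    Nonempty (K₀ →+* K) → ∃ C : ℝ, 0 < C ∧
      Tendsto (fun B : ℝ => (N K d G B : ℝ) /
        (B ^ (1 / (minInd G : ℝ)) * Real.log B ^ (beta K G - 1))) atTop (nhds C)

/-- The lower bound in Q1 for `G`, up to a constant factor. -/
def LowerLargeFields {d : ℕ} (G : Subgroup (Equiv.Perm (Fin d))) : Prop :=
  ∃ (K₀ : Type) (_ : Field K₀) (_ : NumberField K₀), ∀ (K : Type) [Field K] [NumberField K],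
    Nonempty (K₀ →+* K) → ∃ c : ℝ, 0 < c ∧ ∀ᶠ B : ℝ in atTop,
      c * (B ^ (1 / (minInd G : ℝ)) * Real.log B ^ (beta K G - 1)) ≤ (N K d G B : ℝ)

/-- The conclusion of Q1 for `C₂ ≀ H`. -/
def Malle (H : Type) [Group H] : Prop :=
  ∀ (d : ℕ) (G : Subgroup (Equiv.Perm (Fin d))), IsC2Wreath H G → MalleLargeFields G

/-- The group `C₂ ≀ H` exists, and is transitive. -/
theorem exists_group (H : Type) [Group H] [Finite H] : ∃ (d : ℕ)
    (G : Subgroup (Equiv.Perm (Fin d))), d = 2 * Nat.card H ∧ IsC2Wreath H G ∧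
      ∀ i j : Fin d, ∃ g ∈ G, g i = j := by
  have hcard : Nat.card (H × Bool) = 2 * Nat.card H := by
    rw [Nat.card_prod, mul_comm]
    simp
  let f : Fin (2 * Nat.card H) ≃ H × Bool := (Finite.equivFinOfCardEq hcard).symm
  let G : Subgroup (Equiv.Perm (Fin (2 * Nat.card H))) :=
    { carrier := {π | ∃ h : H, ∀ i, (f (π i)).1 = h * (f i).1}
      one_mem' := ⟨1, fun i => by simp⟩
      mul_mem' := by
        rintro π ρ ⟨h, hh⟩ ⟨h', hh'⟩
        refine ⟨h * h', fun i => ?_⟩
        rw [Equiv.Perm.mul_apply, hh, hh', mul_assoc]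
      inv_mem' := by
        rintro π ⟨h, hh⟩
        refine ⟨h⁻¹, fun i => ?_⟩
        have h1 := hh (π⁻¹ i)
        rw [show π (π⁻¹ i) = i from π.apply_symm_apply i] at h1
        rw [h1, inv_mul_cancel_left] }
  refine ⟨2 * Nat.card H, G, rfl, ⟨f, fun π => Iff.rfl⟩, fun i j => ?_⟩
  let t : Equiv.Perm (H × Bool) :=
    (Equiv.mulLeft ((f j).1 * (f i).1⁻¹)).prodCongr (Equiv.swap (f i).2 (f j).2)
  refine ⟨f.trans (t.trans f.symm), ⟨(f j).1 * (f i).1⁻¹, fun x => ?_⟩, ?_⟩
  · simp [t]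
  · change f.symm (t (f i)) = j
    rw [Equiv.symm_apply_eq]
    exact Prod.ext (by simp [t]) (by simp [t])

theorem minInd_eq {H : Type} [Group H] {d : ℕ} {G : Subgroup (Equiv.Perm (Fin d))}
    (hG : IsC2Wreath H G) : minInd G = 1 := by
  obtain ⟨f, hf⟩ := hG
  obtain ⟨i, j, hij, hs⟩ := Run7.h202.MLB.exists_swap hf
  have hmem : 1 ∈ {i | ∃ g ∈ G, g ≠ 1 ∧ i = ind g} :=
    ⟨Equiv.swap i j, hs, fun h => hij (Equiv.swap_eq_one_iff.1 h),
      (Run7.h202.MLB.ind_eq_one.2 ⟨i, j, hij, rfl⟩).symm⟩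
  refine le_antisymm (Nat.sInf_le hmem) ?_
  refine le_csInf ⟨1, hmem⟩ ?_
  rintro _ ⟨g, -, hg, rfl⟩
  exact Run7.h202.MLB.one_le_ind hg

theorem beta_eq {H : Type} [Group H] (h2 : 2 ≤ Nat.card H) {d : ℕ}
    {G : Subgroup (Equiv.Perm (Fin d))} (hG : IsC2Wreath H G) (K : Type) [Field K] :
    beta K G = 1 := by
  have h1 := minInd_eq hG
  obtain ⟨f, hf⟩ := hG
  obtain ⟨i, j, hij, hs⟩ := Run7.h202.MLB.exists_swap hf
  have h3 : ind (Equiv.swap i j) = minInd G := by
    rw [h1]
    exact Run7.h202.MLB.ind_eq_one.2 ⟨i, j, hij, rfl⟩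
  rw [beta, Nat.card_eq_one_iff_unique]
  refine ⟨⟨fun a b => ?_⟩, ⟨Quot.mk _ ⟨Equiv.swap i j, hs, h3⟩⟩⟩
  induction a using Quot.inductionOn with
  | _ a =>
    induction b using Quot.inductionOn with
    | _ b =>
      obtain ⟨g, hg, hg1⟩ := a
      obtain ⟨g', hg', hg1'⟩ := b
      rw [h1] at hg1 hg1'
      obtain ⟨x, y, hxy, rfl⟩ := Run7.h202.MLB.ind_eq_one.1 hg1
      obtain ⟨x', y', hxy', rfl⟩ := Run7.h202.MLB.ind_eq_one.1 hg1'
      obtain ⟨t, ht, h5⟩ := Run7.h202.MLB.conj_swaps h2 hf hxy hxy' hg hg'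
      refine Quot.sound ⟨t, ht, 1, ⟨1, fun ζ _ => ?_⟩, ?_⟩
      · simp
      · rw [pow_one]
        exact h5

theorem malle_of {H : Type} [Group H] [Finite H] (h2 : 2 ≤ Nat.card H)
    (hs : Run7.h202.MLB.SmallRep H) : Malle H := by
  intro d G hG
  obtain ⟨K₀, i1, i2, hK₀⟩ := Run7.h202.MLB.large H
  refine ⟨K₀, i1, i2, fun K _ _ hK => ?_⟩
  obtain ⟨F, _, _, h3, h4, ⟨γ⟩⟩ := hK₀ K hK
  obtain ⟨C, hC, hlim⟩ := Run7.h202.MLB.asymp_fam K H h2 hs
    (Run7.h202.MLB.gal_nonempty K H F γ) G hG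
  refine ⟨C, hC, ?_⟩
  have hlim' : Tendsto (fun B : ℝ => (N K d G B : ℝ) / B) atTop (nhds C) := hlim
  rw [minInd_eq hG, beta_eq h2 hG K]
  simpa using hlim'

theorem lower_of {H : Type} [Group H] [Finite H] (h2 : 2 ≤ Nat.card H) {d : ℕ}
    (G : Subgroup (Equiv.Perm (Fin d))) (hG : IsC2Wreath H G) : LowerLargeFields G := by
  obtain ⟨K₀, i1, i2, hK₀⟩ := Run7.h202.MLB.large H
  refine ⟨K₀, i1, i2, fun K _ _ hK => ?_⟩
  obtain ⟨F, _, _, h3, h4, ⟨γ⟩⟩ := hK₀ K hK
  obtain ⟨c, hc, hlow⟩ := Run7.h202.MLB.lower K H (Run7.h202.MLB.gal_nonempty K H F γ) G hG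
  refine ⟨c, hc, ?_⟩
  have hlow' : ∀ᶠ B : ℝ in atTop, c * B ≤ (N K d G B : ℝ) := hlow
  rw [minInd_eq hG, beta_eq h2 hG K]
  simpa using hlow'

/-- **Malle's conjecture over sufficiently large base fields for `C₂ ≀ H`.** -/
theorem result :
    -- the lower bound for every finite group `H ≠ 1`
    (∀ (H : Type) [Group H] [Finite H], 2 ≤ Nat.card H →
      ∀ (d : ℕ) (G : Subgroup (Equiv.Perm (Fin d))), IsC2Wreath H G → LowerLargeFields G) ∧
    -- the asymptotic formula, if `H` has a faithful permutation representation with stabilizers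
    -- `U i` (one for each orbit) and `8 ∑ [H : U i] ([H : U i] + 1) ≤ |H|`
    (∀ (H : Type) [Group H] [Finite H], 2 ≤ Nat.card H → ∀ (ι : Type) [Fintype ι]
      (U : ι → Subgroup H), ⨅ i, (U i).normalCore = ⊥ →
      ∑ i, 8 * (U i).index * ((U i).index + 1) ≤ Nat.card H → Malle H) ∧
    -- permutation groups of degree `m` and order at least `8 m (m + 1)`
    (∀ (m : ℕ) (H : Subgroup (Equiv.Perm (Fin m))), 1 ≤ m → 8 * m * (m + 1) ≤ Nat.card H →
      Malle H) ∧
    -- the products `A × S_n` and the powers `A ^ k`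
    (∀ (A : Type) [Group A] [Finite A],
      (∀ n : ℕ, Nat.card A + 7 ≤ n → Malle (A × Equiv.Perm (Fin n))) ∧
      (Nontrivial A → ∀ k : ℕ, 9 ≤ k → Malle (Fin k → A))) ∧
    -- the groups exist and are transitive, and the invariants of `G` are `1`
    ∀ (H : Type) [Group H] [Finite H], 2 ≤ Nat.card H →
      (∃ (d : ℕ) (G : Subgroup (Equiv.Perm (Fin d))), d = 2 * Nat.card H ∧ IsC2Wreath H G ∧
        ∀ i j : Fin d, ∃ g ∈ G, g i = j) ∧
      ∀ (d : ℕ) (G : Subgroup (Equiv.Perm (Fin d))), IsC2Wreath H G →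
        minInd G = 1 ∧ ∀ (K : Type) [Field K], beta K G = 1 := by
  refine ⟨fun H _ _ h2 d G hG => lower_of h2 G hG, fun H _ _ h2 ι _ U hU hc =>
    malle_of h2 ⟨ι, inferInstance, U, hU, hc⟩, fun m H hm hc => ?_, fun A _ _ =>
    ⟨fun n hn => ?_, fun hA k hk => ?_⟩, fun H _ _ h2 => ⟨exists_group H, fun d G hG =>
    ⟨minInd_eq hG, fun K _ => beta_eq h2 hG K⟩⟩⟩
  · have h2 : 2 ≤ Nat.card H := by nlinarith
    exact malle_of h2 (Run7.h202.MLB.smallRep_of_perm H m H.subtype H.subtype_injective hc)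
  · obtain ⟨U, hU, hc⟩ := Run7.h202.MLB.small_prod A n hn
    have h2 : 2 ≤ Nat.card (A × Equiv.Perm (Fin n)) := by
      have : 1 ≤ U.index := Nat.one_le_iff_ne_zero.2 Subgroup.index_ne_zero_of_finite
      nlinarith
    refine malle_of h2 ⟨Unit, inferInstance, fun _ => U, ?_, ?_⟩
    · simpa using hU
    · simpa using hc
  · have h2 : 2 ≤ Nat.card (Fin k → A) := by
      have h3 : 1 < Nat.card A := Finite.one_lt_card
      rw [Nat.card_fun, Nat.card_eq_fintype_card (α := Fin k), Fintype.card_fin]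
      calc 2 ≤ Nat.card A := h3
        _ = Nat.card A ^ 1 := (pow_one _).symm
        _ ≤ Nat.card A ^ k := Nat.pow_le_pow_right (by omega) (by omega)
    exact malle_of h2 (Run7.h202.MLB.smallRep_pow A k hk)

end Pool.Agent.Results.MP_b39724_nt.WreathOrderTwoLargeFields
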